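import Mathlib

/-!
From chains of subsets of a vector space over a prime field to sets of integers.
-/

set_option autoImplicit false

open Finset

namespace Pool.MPc7c4cf.GU

/-- The residues of a digit vector. -/
def res {D q : ℕ} (x : Fin D → Fin q) : Fin D → ZMod q := fun i => ((x i : ℕ) : ZMod q)

theorem res_injective {D q : ℕ} : Function.Injective (res : (Fin D → Fin q) → Fin D → ZMod q) := by
  intro x y h
  funext i
  have h1 := congrFun h i
  simp only [res] at h1
  rw [ZMod.natCast_eq_natCast_iff'] at h1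
  rw [Nat.mod_eq_of_lt (x i).2, Nat.mod_eq_of_lt (y i).2] at h1
  exact Fin.ext h1

/-- The number with given digits. -/
def num {D q : ℕ} (x : Fin D → Fin q) : ℕ := ∑ i, (x i : ℕ) * q ^ (i : ℕ)

theorem num_eq {D q : ℕ} (x : Fin D → Fin q) : num x = (finFunctionFinEquiv x : ℕ) := by
  rw [finFunctionFinEquiv_apply]
  rfl

theorem num_injective {D q : ℕ} : Function.Injective (num : (Fin D → Fin q) → ℕ) := by
  intro x y h
  rw [num_eq, num_eq] at h
  exact finFunctionFinEquiv.injective (Fin.ext h)

theorem exists_num {D q n : ℕ} (h : n < q ^ D) : ∃ x : Fin D → Fin q, num x = n := by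
  refine ⟨finFunctionFinEquiv.symm ⟨n, h⟩, ?_⟩
  rw [num_eq, Equiv.apply_symm_apply]

/-- The halved sum of two digit vectors of the same parity. -/
theorem exists_half {D q : ℕ} (x y : Fin D → Fin q)
    (h : ∀ i, (x i : ℕ) % 2 = (y i : ℕ) % 2) :
    ∃ z : Fin D → Fin q, num x + num y = 2 * num z ∧ ∀ i, 2 * res z i = res x i + res y i := by
  have hz : ∀ i, 2 * (((x i : ℕ) + (y i : ℕ)) / 2) = (x i : ℕ) + (y i : ℕ) := by
    intro i
    have := h i
    omega
  refine ⟨fun i => ⟨((x i : ℕ) + (y i : ℕ)) / 2, ?_⟩, ?_, ?_⟩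
  · have h1 := (x i).2
    have h2 := (y i).2
    omega
  · simp only [num]
    rw [← sum_add_distrib, mul_sum]
    apply sum_congr rfl
    intro i _
    calc (x i : ℕ) * q ^ (i : ℕ) + (y i : ℕ) * q ^ (i : ℕ)
        = ((x i : ℕ) + (y i : ℕ)) * q ^ (i : ℕ) := (add_mul _ _ _).symm
      _ = 2 * (((x i : ℕ) + (y i : ℕ)) / 2) * q ^ (i : ℕ) := by rw [hz i]
      _ = 2 * (((x i : ℕ) + (y i : ℕ)) / 2 * q ^ (i : ℕ)) := mul_assoc _ _ _
  · intro i
    have := congrArg (Nat.cast : ℕ → ZMod q) (hz i)
    push_cast at this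
    simp only [res]
    exact this

/-- **From chains to sets of integers.** -/
theorem lift {m D q K X : ℕ} (hm : 1 ≤ m) (hq : q.Prime) (hq2 : q ≠ 2) (hX : X ≤ q ^ D)
    (P : ℕ → Set (Fin D → ZMod q)) (h0 : P 0 = Set.univ)
    (hsmul : ∀ (j : ℕ) (x : Fin D → ZMod q) (r : ZMod q), x ∈ P (j + 1) → r • x ∈ P (j + 1))
    (hlast : (P (m - 1)).ncard ≤ K)
    (hstep : ∀ j, j + 1 < m → ∀ S : Finset (Fin D → ZMod q), (∀ x ∈ S, x ∈ P j) → K ≤ S.card →
      ∃ x ∈ S, ∃ y ∈ S, x ≠ y ∧ x + y ∈ P (j + 1)) :
    ∃ A : Finset ℕ, Ico 1 (2 * X) ⊆ A ∧ (∀ a ∈ A, 1 ≤ a ∧ a < 2 ^ m * X) ∧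
      ∀ B ⊆ A, (∀ b ∈ B, ∀ b' ∈ B, b ≠ b' → b + b' ∉ A) → B.card ≤ 1 + m * (2 ^ D * K) := by
  classical
  have : Fact q.Prime := ⟨hq⟩
  have h2ne : (2 : ZMod q) ≠ 0 := by
    intro h
    have h1 : ((2 : ℕ) : ZMod q) = 0 := by exact_mod_cast h
    rw [ZMod.natCast_eq_zero_iff] at h1
    exact hq2 ((Nat.prime_dvd_prime_iff_eq hq Nat.prime_two).mp h1)
  -- labels and windows
  set Lb : ℕ → Finset (Fin D → Fin q) := fun j => univ.filter fun x => num x < X ∧ res x ∈ P j
    with hLb
  set W : ℕ → Finset ℕ := fun j => (Lb j).image fun x => 2 ^ j * (X + num x) with hW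
  have hWmem : ∀ j x, num x < X → res x ∈ P j → 2 ^ j * (X + num x) ∈ W j := by
    intro j x h1 h2
    exact mem_image.mpr ⟨x, mem_filter.mpr ⟨mem_univ _, h1, h2⟩, rfl⟩
  refine ⟨Ico 1 X ∪ (range m).biUnion W, ?_, ?_, ?_⟩
  · intro a ha
    obtain ⟨ha1, ha2⟩ := mem_Ico.mp ha
    rcases lt_or_ge a X with h | h
    · exact mem_union_left _ (mem_Ico.mpr ⟨ha1, h⟩)
    · refine mem_union_right _ (mem_biUnion.mpr ⟨0, mem_range.mpr hm, ?_⟩)
      obtain ⟨x, hx⟩ := exists_num (D := D) (q := q) (n := a - X) (by omega)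
      have h1 := hWmem 0 x (by omega) (by rw [h0]; exact Set.mem_univ _)
      rw [hx, pow_zero, one_mul] at h1
      have h2 : X + (a - X) = a := by omega
      rwa [h2] at h1
  · intro a ha
    rcases mem_union.mp ha with h | h
    · obtain ⟨h1, h2⟩ := mem_Ico.mp h
      refine ⟨h1, h2.trans_le ?_⟩
      exact Nat.le_mul_of_pos_left _ (by positivity)
    · obtain ⟨j, hj, ha⟩ := mem_biUnion.mp h
      obtain ⟨x, hx, rfl⟩ := mem_image.mp ha
      obtain ⟨-, hx1, -⟩ := mem_filter.mp hx
      have hjm := mem_range.mp hj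
      constructor
      · have : 0 < 2 ^ j * (X + num x) := by
          apply Nat.mul_pos (by positivity)
          omega
        omega
      · calc 2 ^ j * (X + num x) < 2 ^ j * (2 * X) :=
              Nat.mul_lt_mul_of_pos_left (by omega) (by positivity)
          _ = 2 ^ (j + 1) * X := by ring
          _ ≤ 2 ^ m * X := Nat.mul_le_mul_right _ (Nat.pow_le_pow_right (by norm_num) hjm)
  · intro B hB hsf
    set A : Finset ℕ := Ico 1 X ∪ (range m).biUnion W with hA
    have hIco : ∀ a, 1 ≤ a → a < 2 * X → a ∈ A := by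
      intro a ha1 ha2
      rcases lt_or_ge a X with h | h
      · exact mem_union_left _ (mem_Ico.mpr ⟨ha1, h⟩)
      · refine mem_union_right _ (mem_biUnion.mpr ⟨0, mem_range.mpr hm, ?_⟩)
        obtain ⟨x, hx⟩ := exists_num (D := D) (q := q) (n := a - X) (by omega)
        have h1 := hWmem 0 x (by omega) (by rw [h0]; exact Set.mem_univ _)
        rw [hx, pow_zero, one_mul] at h1
        have h2 : X + (a - X) = a := by omega
        rwa [h2] at h1
    -- the small elements
    have hsmall : (B ∩ Ico 1 X).card ≤ 1 := by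
      rw [card_le_one]
      intro a ha b hb
      by_contra hne
      obtain ⟨haB, haI⟩ := mem_inter.mp ha
      obtain ⟨hbB, hbI⟩ := mem_inter.mp hb
      obtain ⟨a1, a2⟩ := mem_Ico.mp haI
      obtain ⟨b1, b2⟩ := mem_Ico.mp hbI
      exact hsf a haB b hbB hne (hIco _ (by omega) (by omega))
    -- one window
    have hwin : ∀ j ∈ range m, (B ∩ W j).card ≤ 2 ^ D * K := by
      intro j hj
      have hjm := mem_range.mp hj
      set T : Finset (Fin D → Fin q) := (Lb j).filter fun x => 2 ^ j * (X + num x) ∈ B with hT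
      have hBT : (B ∩ W j).card ≤ T.card := by
        have : B ∩ W j ⊆ T.image fun x => 2 ^ j * (X + num x) := by
          intro b hb
          obtain ⟨hbB, hbW⟩ := mem_inter.mp hb
          obtain ⟨x, hx, rfl⟩ := mem_image.mp hbW
          exact mem_image.mpr ⟨x, mem_filter.mpr ⟨hx, hbB⟩, rfl⟩
        exact (card_le_card this).trans card_image_le
      refine hBT.trans ?_
      rcases Nat.lt_or_ge (j + 1) m with hj1 | hj1
      · by_contra hcon
        push Not at hcon
        -- parity classes
        have hpig : ∃ p ∈ (univ : Finset (Fin D → Fin 2)),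
            K < (T.filter fun x => (fun i => (⟨(x i : ℕ) % 2, Nat.mod_lt _ (by norm_num)⟩ : Fin 2))
              = p).card := by
          apply exists_lt_card_fiber_of_mul_lt_card_of_maps_to (fun x _ => mem_univ _)
          rw [card_univ, Fintype.card_fun, Fintype.card_fin, Fintype.card_fin]
          exact hcon
        obtain ⟨p, -, hp⟩ := hpig
        set T' := T.filter fun x => (fun i => (⟨(x i : ℕ) % 2, Nat.mod_lt _ (by norm_num)⟩ : Fin 2))
              = p with hT'
        obtain ⟨u, hu, v, hv, huv, hsum⟩ := hstep j hj1 (T'.image res) (by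
          intro u hu
          obtain ⟨x, hx, rfl⟩ := mem_image.mp hu
          exact (mem_filter.mp (mem_filter.mp (mem_filter.mp hx).1).1).2.2) (by
          rw [card_image_of_injective _ res_injective]
          exact hp.le)
        obtain ⟨x, hx, rfl⟩ := mem_image.mp hu
        obtain ⟨y, hy, rfl⟩ := mem_image.mp hv
        obtain ⟨hxT, hxp⟩ := mem_filter.mp hx
        obtain ⟨hyT, hyp⟩ := mem_filter.mp hy
        obtain ⟨hxL, hxB⟩ := mem_filter.mp hxT
        obtain ⟨hyL, hyB⟩ := mem_filter.mp hyT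
        have hxX := (mem_filter.mp hxL).2.1
        have hyX := (mem_filter.mp hyL).2.1
        obtain ⟨z, hz1, hz2⟩ := exists_half x y (by
          intro i
          have h1 := congrFun (hxp.trans hyp.symm) i
          exact congrArg Fin.val h1)
        have hzP : res z ∈ P (j + 1) := by
          have h1 := hsmul j _ ((2 : ZMod q)⁻¹) hsum
          have h2 : (2 : ZMod q)⁻¹ • (res x + res y) = res z := by
            funext i
            rw [Pi.smul_apply, Pi.add_apply, ← hz2 i, smul_eq_mul, inv_mul_cancel_left₀ h2ne]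
          rwa [h2] at h1
        have hzW := hWmem (j + 1) z (by omega) hzP
        have hne : 2 ^ j * (X + num x) ≠ 2 ^ j * (X + num y) := by
          intro h
          have h1 : X + num x = X + num y := Nat.eq_of_mul_eq_mul_left (by positivity) h
          exact huv (congrArg res (num_injective (by omega)))
        refine hsf _ hxB _ hyB hne ?_
        have h3 : 2 ^ j * (X + num x) + 2 ^ j * (X + num y) = 2 ^ (j + 1) * (X + num z) := by
          calc 2 ^ j * (X + num x) + 2 ^ j * (X + num y)
              = 2 ^ j * (2 * X + (num x + num y)) := by ring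
            _ = 2 ^ (j + 1) * (X + num z) := by
                rw [hz1]
                ring
        rw [h3]
        exact mem_union_right _ (mem_biUnion.mpr ⟨j + 1, mem_range.mpr hj1, hzW⟩)
      · have hjm' : j = m - 1 := by omega
        have h1 : T.card ≤ (P (m - 1)).ncard := by
          rw [← card_image_of_injective T res_injective, ← Set.ncard_coe_finset]
          apply Set.ncard_le_ncard
          · intro u hu
            obtain ⟨x, hx, rfl⟩ := mem_image.mp (mem_coe.mp hu)
            rw [← hjm']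
            exact (mem_filter.mp (mem_filter.mp hx).1).2.2
          · exact Set.toFinite _
        calc T.card ≤ (P (m - 1)).ncard := h1
          _ ≤ K := hlast
          _ ≤ 2 ^ D * K := Nat.le_mul_of_pos_left _ (by positivity)
    have hsplit : B ⊆ (B ∩ Ico 1 X) ∪ (range m).biUnion fun j => B ∩ W j := by
      intro b hb
      rcases mem_union.mp (hB hb) with h | h
      · exact mem_union_left _ (mem_inter.mpr ⟨hb, h⟩)
      · obtain ⟨j, hj, h1⟩ := mem_biUnion.mp h
        exact mem_union_right _ (mem_biUnion.mpr ⟨j, hj, mem_inter.mpr ⟨hb, h1⟩⟩)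
    calc B.card ≤ _ := card_le_card hsplit
      _ ≤ (B ∩ Ico 1 X).card + ((range m).biUnion fun j => B ∩ W j).card := card_union_le _ _
      _ ≤ 1 + ∑ j ∈ range m, (B ∩ W j).card := add_le_add hsmall card_biUnion_le
      _ ≤ 1 + ∑ j ∈ range m, 2 ^ D * K := Nat.add_le_add_left (sum_le_sum hwin) _
      _ = 1 + m * (2 ^ D * K) := by rw [sum_const, card_range, smul_eq_mul]

end Pool.MPc7c4cf.GU
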