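import Pool.Agent.H.MP_c7c4cf_nt.Windows

/-!
The lower bound for dense sets.
-/

set_option autoImplicit false

open Finset

namespace Pool.MPc7c4cf.GU

/-- A largest relative sum-free subset has at least two elements. -/
theorem exists_largest (A : Finset ℕ) (hA : ∀ a ∈ A, 0 < a) (h2 : 2 ≤ A.card) :
    ∃ B ⊆ A, (∀ b ∈ B, ∀ b' ∈ B, b ≠ b' → b + b' ∉ A) ∧ 2 ≤ B.card ∧
      ∀ B' ⊆ A, (∀ b ∈ B', ∀ b' ∈ B', b ≠ b' → b + b' ∉ A) → B'.card ≤ B.card := by
  classical
  set F := A.powerset.filter fun B => ∀ b ∈ B, ∀ b' ∈ B, b ≠ b' → b + b' ∉ A with hF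
  have hFne : F.Nonempty := ⟨∅, mem_filter.mpr ⟨empty_mem_powerset _, by simp⟩⟩
  obtain ⟨B, hBF, hmax⟩ := F.exists_max_image card hFne
  obtain ⟨hBA, hB⟩ := mem_filter.mp hBF
  rw [mem_powerset] at hBA
  have hl : ∀ B' ⊆ A, (∀ b ∈ B', ∀ b' ∈ B', b ≠ b' → b + b' ∉ A) → B'.card ≤ B.card :=
    fun B' hB' h => hmax B' (mem_filter.mpr ⟨mem_powerset.mpr hB', h⟩)
  have hl2 : 2 ≤ B.card := by
    have hne : A.Nonempty := card_pos.mp (by omega)
    obtain ⟨b, hb, hbmax⟩ := A.exists_max_image id hne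
    obtain ⟨a, ha⟩ : (A.erase b).Nonempty := by
      rw [← card_pos, card_erase_of_mem hb]
      omega
    obtain ⟨hab, haA⟩ := mem_erase.mp ha
    have hsum : a + b ∉ A := by
      intro h
      have h1 := hbmax _ h
      have h3 := hA a haA
      simp only [id] at h1
      omega
    have h4 := hl {a, b} (by
      intro x hx
      rcases mem_insert.mp hx with h | h
      · exact h ▸ haA
      · exact (mem_singleton.mp h) ▸ hb) (by
      intro x hx y hy hxy
      rcases mem_insert.mp hx with h | h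
      · rcases mem_insert.mp hy with h' | h'
        · exact absurd (h.trans h'.symm) hxy
        · rw [h, mem_singleton.mp h']
          exact hsum
      · rcases mem_insert.mp hy with h' | h'
        · rw [h', mem_singleton.mp h, add_comm]
          exact hsum
        · exact absurd ((mem_singleton.mp h).trans (mem_singleton.mp h').symm) hxy)
    rw [card_pair hab] at h4
    exact h4
  exact ⟨B, hBA, hB, hl2, hl⟩

/-- **The lower bound**: sets of density greater than `2 ^ (-m)` have relative sum-free subsets of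
size at least `c N ^ (1 / m)`. -/
theorem low (m : ℕ) (hm : 1 ≤ m) (δ : ℝ) (hδ : (1 / 2 : ℝ) ^ m < δ) :
    ∃ c : ℝ, 0 < c ∧ ∀ N : ℕ, 1 ≤ N → ∀ A ⊆ Icc 1 N, δ * N ≤ A.card →
      ∃ B ⊆ A, (∀ b ∈ B, ∀ b' ∈ B, b ≠ b' → b + b' ∉ A) ∧
        c * (N : ℝ) ^ (1 / (m : ℝ)) ≤ B.card := by
  classical
  set η : ℝ := δ - (1 / 2 : ℝ) ^ m with hη
  have hη0 : 0 < η := by
    rw [hη]
    linarith
  have hm0 : (0 : ℝ) < m := by exact_mod_cast hm
  have hm1 : (1 : ℝ) ≤ m := by exact_mod_cast hm
  refine ⟨(η / (2 * m)) ^ (1 / (m : ℝ)), by positivity, ?_⟩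
  intro N hN A hA hcard
  have hN0 : (0 : ℝ) < N := by exact_mod_cast hN
  have hcN : (η / (2 * m)) ^ (1 / (m : ℝ)) * (N : ℝ) ^ (1 / (m : ℝ))
      = (η * N / (2 * m)) ^ (1 / (m : ℝ)) := by
    rw [← Real.mul_rpow (by positivity) hN0.le]
    congr 1
    ring
  rw [hcN]
  set A' := A.filter fun a => N + 1 ≤ 2 ^ m * a with hA'
  have hA'A : A' ⊆ A := filter_subset _ _
  -- the number of the elements of `A'`
  have hrest : ((A.filter fun a => ¬ (N + 1 ≤ 2 ^ m * a)).card : ℝ) ≤ N * (1 / 2 : ℝ) ^ m := by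
    have h1 : A.filter (fun a => ¬ (N + 1 ≤ 2 ^ m * a)) ⊆ Icc 1 (N / 2 ^ m) := by
      intro a ha
      obtain ⟨haA, hlt⟩ := mem_filter.mp ha
      refine mem_Icc.mpr ⟨(mem_Icc.mp (hA haA)).1, ?_⟩
      rw [Nat.le_div_iff_mul_le (by positivity), mul_comm]
      omega
    have h2 := card_le_card h1
    rw [Nat.card_Icc, Nat.add_sub_cancel] at h2
    have h3 : ((N / 2 ^ m : ℕ) : ℝ) ≤ (N : ℝ) / ((2 ^ m : ℕ) : ℝ) := Nat.cast_div_le
    have h4 : (N : ℝ) / ((2 ^ m : ℕ) : ℝ) = N * (1 / 2 : ℝ) ^ m := by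
      push_cast
      rw [one_div, inv_pow, div_eq_mul_inv]
    calc ((A.filter fun a => ¬ (N + 1 ≤ 2 ^ m * a)).card : ℝ) ≤ ((N / 2 ^ m : ℕ) : ℝ) := by
          exact_mod_cast h2
      _ ≤ _ := h3
      _ = _ := h4
  have hA'card : η * N ≤ A'.card := by
    have h1 := card_filter_add_card_filter_not (s := A) (fun a => N + 1 ≤ 2 ^ m * a)
    have h2 : (A'.card : ℝ) + ((A.filter fun a => ¬ (N + 1 ≤ 2 ^ m * a)).card : ℝ) = A.card := by
      exact_mod_cast h1
    rw [hη]
    nlinarith
  have hApos : ∀ a ∈ A, 0 < a := fun a ha => (mem_Icc.mp (hA ha)).1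
  rcases Nat.lt_or_ge A'.card 2 with hsm | h2
  · -- at most one element
    have hAne : A.Nonempty := by
      rw [← card_pos]
      have : (0 : ℝ) < A.card := by
        have h1 : (A'.card : ℝ) ≤ A.card := by exact_mod_cast card_le_card hA'A
        have h2 : 0 < η * N := by positivity
        linarith
      exact_mod_cast this
    obtain ⟨a, ha⟩ := hAne
    refine ⟨{a}, singleton_subset_iff.mpr ha, ?_, ?_⟩
    · intro b hb b' hb' hne
      exact absurd ((mem_singleton.mp hb).trans (mem_singleton.mp hb').symm) hne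
    · rw [card_singleton, Nat.cast_one]
      apply Real.rpow_le_one (by positivity) _ (by positivity)
      rw [div_le_one (by positivity)]
      have : (A'.card : ℝ) ≤ 1 := by exact_mod_cast Nat.lt_succ_iff.mp hsm
      linarith
  · obtain ⟨B, hBA, hB, hB2, hmax⟩ := exists_largest A' (fun a ha => hApos a (hA'A ha)) h2
    refine ⟨B, hBA.trans hA'A, ?_, ?_⟩
    · intro b hb b' hb' hne hmem
      refine hB b hb b' hb' hne (mem_filter.mpr ⟨hmem, ?_⟩)
      have h1 := (mem_filter.mp (hBA hb)).2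
      calc N + 1 ≤ 2 ^ m * b := h1
        _ ≤ 2 ^ m * (b + b') := Nat.mul_le_mul_left _ (Nat.le_add_right _ _)
    · set ψ : ℕ → ℝ := fun a => a * (2 ^ m / (N + 1)) with hψ
      have hN1 : (0 : ℝ) < N + 1 := by positivity
      have hpos : ∀ a ∈ A', 0 < ψ a := by
        intro a ha
        have : (0 : ℝ) < a := by exact_mod_cast hApos a (hA'A ha)
        positivity
      have hadd : ∀ a ∈ A', ∀ b ∈ A', a ≠ b → a + b ∈ A' → ψ (a + b) = ψ a + ψ b := by
        intro a _ b _ _ _
        simp only [hψ]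
        push_cast
        ring
      have htriv := trivial_bound hpos hadd B.card hB2 hmax
      have hd : (dyadic A' ψ).card ≤ m := by
        have h1 : dyadic A' ψ ⊆ (range m).image fun r : ℕ => (r : ℤ) := by
          intro k hk
          obtain ⟨a, ha, rfl⟩ := mem_image.mp hk
          obtain ⟨haA, ha1⟩ := mem_filter.mp ha
          have haN := (mem_Icc.mp (hA haA)).2
          have e1 : (1 : ℝ) ≤ ψ a := by
            simp only [hψ]
            rw [← mul_div_assoc, le_div_iff₀ hN1, one_mul]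
            have : ((N + 1 : ℕ) : ℝ) ≤ ((2 ^ m * a : ℕ) : ℝ) := by exact_mod_cast ha1
            push_cast at this
            linarith
          have e2 : ψ a < 2 ^ m := by
            simp only [hψ]
            rw [← mul_div_assoc, div_lt_iff₀ hN1]
            have h3 : (a : ℝ) < N + 1 := by exact_mod_cast Nat.lt_succ_of_le haN
            have h4 : (0 : ℝ) < 2 ^ m := by positivity
            nlinarith
          have e3 : 0 ≤ Int.log 2 (ψ a) := by
            rw [← Int.zpow_le_iff_le_log (by norm_num) (hpos a ha)]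
            simpa using e1
          have e4 : Int.log 2 (ψ a) < m := by
            rw [← Int.lt_zpow_iff_log_lt (by norm_num) (hpos a ha)]
            simpa using e2
          refine mem_image.mpr ⟨(Int.log 2 (ψ a)).toNat, mem_range.mpr ?_, ?_⟩
          · omega
          · exact Int.toNat_of_nonneg e3
        calc (dyadic A' ψ).card ≤ _ := card_le_card h1
          _ ≤ (range m).card := card_image_le
          _ = m := card_range m
      have hle : A'.card ≤ 2 * m * B.card ^ m := by
        calc A'.card ≤ 2 * (dyadic A' ψ).card * B.card ^ (dyadic A' ψ).card := htriv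
          _ ≤ 2 * m * B.card ^ m :=
            Nat.mul_le_mul (Nat.mul_le_mul_left _ hd) (Nat.pow_le_pow_right (by omega) hd)
      have hle' : (A'.card : ℝ) ≤ 2 * m * (B.card : ℝ) ^ m := by exact_mod_cast hle
      have h5 : η * N / (2 * m) ≤ (B.card : ℝ) ^ m := by
        rw [div_le_iff₀ (by positivity)]
        linarith
      calc (η * N / (2 * m)) ^ (1 / (m : ℝ)) ≤ ((B.card : ℝ) ^ m) ^ (1 / (m : ℝ)) :=
            Real.rpow_le_rpow (by positivity) h5 (by positivity)
        _ = B.card := by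
            rw [one_div]
            exact Real.pow_rpow_inv_natCast (Nat.cast_nonneg _) (by omega)

end Pool.MPc7c4cf.GU
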