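import Pool.Agent.H.MP_c7c4cf_nt.GU.Lift

/-!
The upper bound for dense sets, from chains in vector spaces over prime fields.
-/

set_option autoImplicit false

open Finset

namespace Pool.MPc7c4cf.GU

/-- A chain of `m` scalar-invariant sets, starting with the whole space, in which any `K` elements
of one set contain two distinct ones with sum in the next set, and the last set has at most `K`
elements. -/
def HasChain (m D q K : ℕ) : Prop :=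
  ∃ P : ℕ → Set (Fin D → ZMod q), P 0 = Set.univ ∧
    (∀ (j : ℕ) (x : Fin D → ZMod q) (r : ZMod q), x ∈ P (j + 1) → r • x ∈ P (j + 1)) ∧
    (P (m - 1)).ncard ≤ K ∧
    ∀ j, j + 1 < m → ∀ S : Finset (Fin D → ZMod q), (∀ x ∈ S, x ∈ P j) → K ≤ S.card →
      ∃ x ∈ S, ∃ y ∈ S, x ≠ y ∧ x + y ∈ P (j + 1)

/-- A good dimension parameter. -/
theorem exists_k (m : ℕ) (hm : 1 ≤ m) (ε : ℝ) (hε : 0 < ε) :
    ∃ k : ℕ, 2 ≤ k ∧ ((k + 2 * (m - 1) : ℕ) : ℝ) / (((k - 1) * (m - 1) + k : ℕ) : ℝ) ≤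
      1 / (m : ℝ) + ε := by
  obtain ⟨k, hk⟩ := exists_nat_ge (2 / ε + 2)
  have hk2 : (2 : ℝ) ≤ k := by
    have : 0 < 2 / ε := by positivity
    linarith
  have hk2' : 2 ≤ k := by exact_mod_cast hk2
  refine ⟨k, hk2', ?_⟩
  obtain ⟨a, rfl⟩ : ∃ a, m = a + 1 := ⟨m - 1, by omega⟩
  obtain ⟨b, rfl⟩ : ∃ b, k = b + 2 := ⟨k - 2, by omega⟩
  have e1 : b + 2 - 1 = b + 1 := by omega
  rw [Nat.add_sub_cancel, e1]
  push_cast at hk ⊢
  have hb : 2 / ε ≤ (b : ℝ) := by linarith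
  have hb0 : (0 : ℝ) ≤ b := Nat.cast_nonneg _
  have ha0 : (0 : ℝ) ≤ a := Nat.cast_nonneg _
  have hεb : 2 ≤ ε * b := by
    rw [div_le_iff₀ hε] at hb
    linarith
  have hab : 0 ≤ (a : ℝ) * b := by positivity
  rw [div_le_iff₀ (by positivity)]
  have h1 : (1 / ((a : ℝ) + 1) + ε) * (((b : ℝ) + 1) * a + (b + 2)) =
      (((b : ℝ) + 1) * a + (b + 2)) / (a + 1) + ε * (((b : ℝ) + 1) * a + (b + 2)) := by
    field_simp
  rw [h1]
  have h2 : ((b : ℝ) + 1) * a + (b + 2) = (b + 1) * (a + 1) + 1 := by ring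
  have h3 : (((b : ℝ) + 1) * a + (b + 2)) / (a + 1) ≥ b + 1 := by
    rw [h2, ge_iff_le, le_div_iff₀ (by positivity)]
    linarith
  have h4 : ε * (((b : ℝ) + 1) * a + (b + 2)) ≥ 2 * a + 1 := by
    have h5 : ε * (((b : ℝ) + 1) * a + (b + 2)) = ε * b * (a + 1) + ε * (a + 2) := by ring
    rw [h5]
    have h6 : 0 ≤ ε * (a + 2) := by positivity
    nlinarith
  linarith

/-- **The upper bound.** -/
theorem upper
    (hchain : ∀ k, 2 ≤ k → ∀ m, 1 ≤ m → ∃ q₀ : ℕ, ∀ q, q₀ ≤ q → q.Prime →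
      HasChain m ((k - 1) * (m - 1) + k) q (q ^ (k + 2 * (m - 1))))
    (m : ℕ) (hm : 1 ≤ m) (δ : ℝ) (hδ : δ ≤ (1 / 2 : ℝ) ^ (m - 1)) (ε : ℝ) (hε : 0 < ε) :
    ∃ N₀ : ℕ, ∀ N, N₀ ≤ N → ∃ A ⊆ Icc 1 N, δ * N ≤ A.card ∧
      ∀ B ⊆ A, (∀ b ∈ B, ∀ b' ∈ B, b ≠ b' → b + b' ∉ A) →
        (B.card : ℝ) ≤ (N : ℝ) ^ (1 / (m : ℝ) + ε) := by
  classical
  obtain ⟨k, hk2, hke⟩ := exists_k m hm (ε / 2) (by positivity)
  obtain ⟨q₀, hq₀⟩ := hchain k hk2 m hm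
  set D : ℕ := (k - 1) * (m - 1) + k with hD
  set e : ℕ := k + 2 * (m - 1) with he
  have hD0 : 0 < D := by omega
  have hDr : (0 : ℝ) < D := by exact_mod_cast hD0
  set C : ℝ := 5 + m * (2 ^ D * (2 * (q₀ + 5)) ^ e) with hC
  have hC0 : 0 < C := by positivity
  obtain ⟨N₁, hN₁⟩ := exists_nat_ge (C ^ (2 / ε))
  refine ⟨max N₁ (2 ^ m), fun N hN => ?_⟩
  have hNN : N₁ ≤ N := (le_max_left _ _).trans hN
  have hN2 : 2 ^ m ≤ N := (le_max_right _ _).trans hN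
  have hN1 : 1 ≤ N := (Nat.one_le_two_pow).trans hN2
  have hNr : (1 : ℝ) ≤ N := by exact_mod_cast hN1
  have hCN : C ≤ (N : ℝ) ^ (ε / 2) := by
    have h1 : C ^ (2 / ε) ≤ N := hN₁.trans (by exact_mod_cast hNN)
    have h2 := Real.rpow_le_rpow (by positivity) h1 (show 0 ≤ ε / 2 by positivity)
    rw [← Real.rpow_mul hC0.le] at h2
    have h3 : 2 / ε * (ε / 2) = 1 := by field_simp
    rwa [h3, Real.rpow_one] at h2
  set X : ℕ := (N + 1) / 2 ^ m with hX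
  have hXle : 2 ^ m * X ≤ N + 1 := Nat.mul_div_le _ _
  have hXN : X ≤ N := by
    rcases Nat.eq_zero_or_pos X with h | h
    · omega
    · have : 2 * X ≤ 2 ^ m * X := by
        apply Nat.mul_le_mul_right
        calc 2 = 2 ^ 1 := rfl
          _ ≤ 2 ^ m := Nat.pow_le_pow_right (by norm_num) hm
      omega
  have hXlt : N + 1 < 2 ^ m * (X + 1) := by
    have := Nat.lt_mul_div_succ (N + 1) (show 0 < 2 ^ m by positivity)
    exact this
  -- the prime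
  set y : ℕ := ⌈(X : ℝ) ^ (1 / (D : ℝ))⌉₊ + q₀ + 3 with hy
  obtain ⟨q, hqp, hyq, hq2y⟩ := Nat.exists_prime_lt_and_le_two_mul y (by omega)
  have hXq : X ≤ q ^ D := by
    have h1 : (X : ℝ) ^ (1 / (D : ℝ)) ≤ q := by
      refine (Nat.le_ceil _).trans ?_
      exact_mod_cast (by omega : ⌈(X : ℝ) ^ (1 / (D : ℝ))⌉₊ ≤ q)
    have h2 := pow_le_pow_left₀ (by positivity) h1 D
    rw [one_div, Real.rpow_inv_natCast_pow (Nat.cast_nonneg _) hD0.ne'] at h2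
    exact_mod_cast h2
  obtain ⟨P, hP0, hPs, hPl, hPstep⟩ := hq₀ q (by omega) hqp
  obtain ⟨A₀, hA₀1, hA₀2, hA₀3⟩ := lift (X := X) hm hqp (by omega) hXq P hP0 hPs hPl hPstep
  have hA₀N : A₀ ⊆ Icc 1 N := by
    intro a ha
    obtain ⟨h1, h2⟩ := hA₀2 a ha
    exact mem_Icc.mpr ⟨h1, by omega⟩
  have hA₀c : 2 * X - 1 ≤ A₀.card := by
    have := card_le_card hA₀1
    rwa [Nat.card_Ico] at this
  have hNc : (Icc 1 N).card = N := by rw [Nat.card_Icc, Nat.add_sub_cancel]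
  -- padding
  have hδN : δ * N ≤ N * (1 / 2 : ℝ) ^ (m - 1) := by nlinarith
  have hpow1 : (1 / 2 : ℝ) ^ (m - 1) ≤ 1 := pow_le_one₀ (by norm_num) (by norm_num)
  have hδN' : δ * N ≤ N := hδN.trans (by nlinarith)
  set t : ℕ := ⌈δ * N⌉₊ with ht
  have htN : t ≤ N := Nat.ceil_le.mpr hδN'
  have htA : t ≤ A₀.card + 4 := by
    have h1 : (2 : ℝ) ^ m * (1 / 2 : ℝ) ^ (m - 1) = 2 := by
      obtain ⟨a, rfl⟩ : ∃ a, m = a + 1 := ⟨m - 1, by omega⟩
      rw [Nat.add_sub_cancel, pow_succ, mul_right_comm, ← mul_pow]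
      norm_num
    have h2 : ((N + 1 : ℕ) : ℝ) < ((2 ^ m * (X + 1) : ℕ) : ℝ) := by exact_mod_cast hXlt
    push_cast at h2
    have h3 : (N : ℝ) * (1 / 2 : ℝ) ^ (m - 1) ≤ 2 * X + 2 := by
      have h4 : (0 : ℝ) < (1 / 2 : ℝ) ^ (m - 1) := by positivity
      calc (N : ℝ) * (1 / 2 : ℝ) ^ (m - 1) ≤ ((2 : ℝ) ^ m * (X + 1)) * (1 / 2 : ℝ) ^ (m - 1) :=
            mul_le_mul_of_nonneg_right (by linarith) h4.le
        _ = ((2 : ℝ) ^ m * (1 / 2 : ℝ) ^ (m - 1)) * (X + 1) := by ring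
        _ = 2 * X + 2 := by
            rw [h1]
            ring
    rw [ht, Nat.ceil_le]
    have h5 : ((2 * X - 1 : ℕ) : ℝ) ≤ A₀.card := by exact_mod_cast hA₀c
    have h6 : (2 * X : ℝ) ≤ ((2 * X - 1 : ℕ) : ℝ) + 1 := by
      have : 2 * X ≤ (2 * X - 1) + 1 := by omega
      exact_mod_cast this
    push_cast
    linarith
  obtain ⟨A, hA1, hA2, hA3⟩ := exists_subsuperset_card_eq hA₀N (le_max_left A₀.card t) (by
    rw [hNc]
    exact max_le (by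
      have := card_le_card hA₀N
      rwa [hNc] at this) htN)
  refine ⟨A, hA2, ?_, ?_⟩
  · calc δ * N ≤ (t : ℝ) := Nat.le_ceil _
      _ ≤ (A.card : ℝ) := by
          rw [hA3]
          exact_mod_cast le_max_right _ _
  · intro B hB hsf
    have h1 : (B ∩ A₀).card ≤ 1 + m * (2 ^ D * q ^ e) := by
      apply hA₀3 _ inter_subset_right
      intro b hb b' hb' hne hmem
      exact hsf b (mem_inter.mp hb).1 b' (mem_inter.mp hb').1 hne (hA1 hmem)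
    have h2 : (A \ A₀).card ≤ 4 := by
      rw [card_sdiff_of_subset hA1, hA3]
      omega
    have h3 : B ⊆ (B ∩ A₀) ∪ (A \ A₀) := by
      intro b hb
      by_cases h : b ∈ A₀
      · exact mem_union_left _ (mem_inter.mpr ⟨hb, h⟩)
      · exact mem_union_right _ (mem_sdiff.mpr ⟨hB hb, h⟩)
    have h4 : B.card ≤ 5 + m * (2 ^ D * q ^ e) := by
      have := (card_le_card h3).trans (card_union_le _ _)
      omega
    -- the size of q
    have hXpow : (X : ℝ) ^ (1 / (D : ℝ)) ≤ (N : ℝ) ^ (1 / (D : ℝ)) :=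
      Real.rpow_le_rpow (Nat.cast_nonneg _) (by exact_mod_cast hXN) (by positivity)
    have hN1D : (1 : ℝ) ≤ (N : ℝ) ^ (1 / (D : ℝ)) := Real.one_le_rpow hNr (by positivity)
    have hyr : (y : ℝ) ≤ (q₀ + 5) * (N : ℝ) ^ (1 / (D : ℝ)) := by
      have h5 : (⌈(X : ℝ) ^ (1 / (D : ℝ))⌉₊ : ℝ) < (X : ℝ) ^ (1 / (D : ℝ)) + 1 :=
        Nat.ceil_lt_add_one (by positivity)
      have h6 : (0 : ℝ) ≤ q₀ := Nat.cast_nonneg _
      rw [hy]
      push_cast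
      nlinarith
    have hqr : (q : ℝ) ≤ 2 * (q₀ + 5) * (N : ℝ) ^ (1 / (D : ℝ)) := by
      have h5 : (q : ℝ) ≤ 2 * y := by exact_mod_cast hq2y
      linarith
    have hqe : (q : ℝ) ^ e ≤ (2 * (q₀ + 5)) ^ e * (N : ℝ) ^ ((e : ℝ) / D) := by
      calc (q : ℝ) ^ e ≤ (2 * (q₀ + 5) * (N : ℝ) ^ (1 / (D : ℝ))) ^ e :=
            pow_le_pow_left₀ (Nat.cast_nonneg _) hqr e
        _ = (2 * (q₀ + 5)) ^ e * ((N : ℝ) ^ (1 / (D : ℝ))) ^ e := mul_pow _ _ _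
        _ = (2 * (q₀ + 5)) ^ e * (N : ℝ) ^ ((e : ℝ) / D) := by
            rw [← Real.rpow_natCast ((N : ℝ) ^ (1 / (D : ℝ))) e, ← Real.rpow_mul (by linarith)]
            congr 2
            ring
    have hNe : (N : ℝ) ^ ((e : ℝ) / D) ≤ (N : ℝ) ^ (1 / (m : ℝ) + ε / 2) :=
      Real.rpow_le_rpow_of_exponent_le hNr hke
    have hN1e : (1 : ℝ) ≤ (N : ℝ) ^ ((e : ℝ) / D) := Real.one_le_rpow hNr (by positivity)
    have hBr : (B.card : ℝ) ≤ 5 + m * (2 ^ D * (q : ℝ) ^ e) := by exact_mod_cast h4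
    calc (B.card : ℝ) ≤ 5 + m * (2 ^ D * (q : ℝ) ^ e) := hBr
      _ ≤ 5 * (N : ℝ) ^ ((e : ℝ) / D) +
          m * (2 ^ D * ((2 * (q₀ + 5)) ^ e * (N : ℝ) ^ ((e : ℝ) / D))) := by
          apply add_le_add
          · linarith
          · exact mul_le_mul_of_nonneg_left
              (mul_le_mul_of_nonneg_left hqe (by positivity)) (Nat.cast_nonneg _)
      _ = C * (N : ℝ) ^ ((e : ℝ) / D) := by
          rw [hC]
          ring
      _ ≤ (N : ℝ) ^ (ε / 2) * (N : ℝ) ^ (1 / (m : ℝ) + ε / 2) :=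
          mul_le_mul hCN hNe (by positivity) (by positivity)
      _ = (N : ℝ) ^ (1 / (m : ℝ) + ε) := by
          rw [← Real.rpow_add (by linarith)]
          congr 1
          ring

end Pool.MPc7c4cf.GU
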